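import Pool.Agent.H790Z.AP.Form
import Pool.Agent.Helper741.Garside

set_option autoImplicit false
set_option linter.unusedSectionVars false

namespace Pool.Agent.H790Z.AP

open Complex
open scoped ComplexConjugate
open Pool.Agent.Helper741

variable {S : Type*} [Fintype S] [DecidableEq S]

/-- basis vector -/
abbrev ev (s : S) : S → ℂ := Pi.single s 1

lemma form_ev_ev (b : S → S → ℝ) (s t : S) : form b (ev s) (ev t) = b s t := by
  simp [form, ev, Pi.single_apply]

lemma form_expand (b : S → S → ℝ) (v w : S → ℂ) :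
    form b v w = ∑ t, conj (w t) * form b v (ev t) := by
  simp only [form, ev, Pi.single_apply, Finset.mul_sum]
  rw [Finset.sum_comm]
  refine Finset.sum_congr rfl fun t _ => Finset.sum_congr rfl fun s _ => ?_
  rw [Finset.sum_eq_single t]
  · simp; ring
  · intro t' _ h; simp [h]
  · simp

/-- the functional `v ↦ form v (ev s)` -/
noncomputable def fnl (b : S → S → ℝ) (s : S) : (S → ℂ) →ₗ[ℂ] ℂ where
  toFun v := form b v (ev s)
  map_add' v w := form_add_left b v w _
  map_smul' a v := form_smul_left b a v _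

/-- complex reflection -/
noncomputable def rf (b : S → S → ℝ) (a : ℂ) (s : S) : Module.End ℂ (S → ℂ) :=
  LinearMap.id - a • (fnl b s).smulRight (ev s)

lemma rf_apply (b : S → S → ℝ) (a : ℂ) (s : S) (v : S → ℂ) :
    rf b a s v = v - (a * form b v (ev s)) • ev s := by
  simp [rf, fnl, smul_smul]

/-- Gram matrix of the deformed Tits form -/
noncomputable def gram (M : CoxeterMatrix S) (x : ℝ) (s t : S) : ℝ :=
  if s = t then x else -2 * cc M s t

lemma gram_symm (M : CoxeterMatrix S) (x : ℝ) (s t : S) : gram M x s t = gram M x t s := by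
  unfold gram
  by_cases h : s = t
  · subst h; rfl
  · rw [if_neg h, if_neg (Ne.symm h), cc_symm]

lemma gram_self (M : CoxeterMatrix S) (x : ℝ) (s : S) : gram M x s s = x := by simp [gram]

lemma gram_ne (M : CoxeterMatrix S) (x : ℝ) {s t : S} (h : s ≠ t) :
    gram M x s t = -2 * cc M s t := by simp [gram, h]

/-- the parameter data -/
structure Par (M : CoxeterMatrix S) where
  x : ℝ
  r : ℂ
  hr : r * conj r = 1
  hx : (x : ℂ) = r + conj r
  hc : ∀ s t, s ≠ t → 2 * cc M s t < x
  h0 : ∀ s t, s ≠ t → M s t ≠ 0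

variable {M : CoxeterMatrix S} (P : Par M)

lemma Par.r_ne : P.r ≠ 0 := by
  intro h
  have := P.hr
  rw [h] at this
  simp at this

lemma rf_rf (a a' : ℂ) (h : a + a' = a * a' * P.x) (s : S) :
    rf (gram M P.x) a s * rf (gram M P.x) a' s = 1 := by
  apply LinearMap.ext
  intro v
  rw [Module.End.mul_apply, rf_apply, rf_apply, form_sub_left, form_smul_left, form_ev_ev,
    gram_self, Module.End.one_apply, sub_sub, ← add_smul]
  have : a' * form (gram M P.x) v (ev s) + a * (form (gram M P.x) v (ev s) -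
      a' * form (gram M P.x) v (ev s) * P.x) = 0 := by
    linear_combination form (gram M P.x) v (ev s) * h
  rw [this, zero_smul, sub_zero]

/-- Burau generator -/
noncomputable def sig (s : S) : (Module.End ℂ (S → ℂ))ˣ where
  val := rf (gram M P.x) P.r s
  inv := rf (gram M P.x) (conj P.r) s
  val_inv := rf_rf P _ _ (by rw [P.hr, P.hx, one_mul]) s
  inv_val := rf_rf P _ _ (by rw [mul_comm (conj P.r), P.hr, P.hx, one_mul, add_comm]) s

/-- underlying endomorphism -/
noncomputable abbrev sg' (s : S) : Module.End ℂ (S → ℂ) := rf (gram M P.x) P.r s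

lemma sg'_self (s : S) : sg' P s (ev s) = (-(P.r ^ 2)) • ev s := by
  rw [rf_apply, form_ev_ev, gram_self, P.hx]
  have : (-(P.r ^ 2)) = 1 - P.r * (P.r + conj P.r) := by
    linear_combination P.hr
  rw [this, sub_smul, one_smul]

lemma sg'_ne {s t : S} (h : s ≠ t) :
    sg' P t (ev s) = ev s + (P.r * (2 * cc M s t)) • ev t := by
  rw [rf_apply, form_ev_ev, gram_ne M _ h, sub_eq_add_neg, ← neg_smul]
  congr 2
  push_cast; ring

lemma alt_ev {s t : S} (h : s ≠ t) (k : ℕ) :
    (Even k → P.r • (alt (sg' P s) (sg' P t) k) (ev s) =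
      (P.r ^ (k + 1) * qs (cc M s t) (k + 1)) • ev s + (P.r ^ k * qs (cc M s t) k) • ev t) ∧
    (¬ Even k → P.r • (alt (sg' P t) (sg' P s) k) (ev s) =
      (P.r ^ (k + 1) * qs (cc M s t) (k + 1)) • ev t + (P.r ^ k * qs (cc M s t) k) • ev s) := by
  induction k with
  | zero => simp
  | succ k ih =>
    constructor
    · intro hk
      have hk' : ¬ Even k := by simpa [Nat.even_add_one] using hk
      rw [alt_succ, Module.End.mul_apply, ← map_smul, ih.2 hk', map_add, map_smul, map_smul,
        sg'_self, sg'_ne P h.symm, qs_add_two, cc_symm M t s]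
      push_cast
      module
    · intro hk
      have hk' : Even k := by simpa [Nat.even_add_one] using hk
      rw [alt_succ, Module.End.mul_apply, ← map_smul, ih.1 hk', map_add, map_smul, map_smul,
        sg'_self, sg'_ne P h, qs_add_two]
      push_cast
      module

omit [Fintype S] [DecidableEq S] in
lemma qs_vals {s t : S} (h : s ≠ t) {k : ℕ} (hk : M s t = k + 1) :
    qs (cc M s t) (k + 2) = -1 ∧ qs (cc M s t) (k + 1) = 0 ∧ qs (cc M s t) k = 1 := by
  have h0 : M s t ≠ 0 := by omega
  have hs := sin_pos_of_ne M h h0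
  have hm : (M s t : ℝ) = k + 1 := by exact_mod_cast hk
  have hm0 : (k : ℝ) + 1 ≠ 0 := by positivity
  have e1 : qs (cc M s t) (k + 1) = 0 := by
    have h1 := qs_sin (Real.pi / (M s t : ℝ)) (k + 1)
    have h2 : ((k + 1 : ℕ) : ℝ) * (Real.pi / (M s t : ℝ)) = Real.pi := by
      rw [hm]; push_cast; field_simp
    rw [h2, Real.sin_pi] at h1
    exact (mul_eq_zero.mp h1).resolve_right hs.ne'
  have e2 : qs (cc M s t) k = 1 := by
    have h1 := qs_sin (Real.pi / (M s t : ℝ)) k
    have h2 : (k : ℝ) * (Real.pi / (M s t : ℝ)) = Real.pi - Real.pi / (M s t : ℝ) := by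
      rw [hm]; field_simp; ring
    rw [h2, Real.sin_pi_sub] at h1
    have : (qs (cc M s t) k - 1) * Real.sin (Real.pi / (M s t : ℝ)) = 0 := by
      rw [sub_mul, one_mul]
      exact sub_eq_zero.mpr h1
    have := (mul_eq_zero.mp this).resolve_right hs.ne'
    linarith
  refine ⟨?_, e1, e2⟩
  rw [qs_add_two, e1, e2]; ring

lemma braid_ev {s t : S} (h : s ≠ t) :
    (alt (sg' P s) (sg' P t) (M s t)) (ev s) = (alt (sg' P t) (sg' P s) (M s t)) (ev s) := by
  obtain ⟨k, hk⟩ : ∃ k, M s t = k + 1 := ⟨M s t - 1, by have := P.h0 s t h; omega⟩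
  obtain ⟨q1, q2, q3⟩ := qs_vals h hk
  apply smul_right_injective _ P.r_ne
  simp only
  rw [hk]
  by_cases he : Even k
  · have ho : ¬ Even (k + 1) := by simpa [Nat.even_add_one] using he
    rw [(alt_ev P h (k + 1)).2 ho, alt_succ', if_pos he, Module.End.mul_apply, sg'_self, map_smul,
      smul_comm, (alt_ev P h k).1 he, q1, q2, q3]
    push_cast
    module
  · have ho : Even (k + 1) := by simpa [Nat.even_add_one] using he
    rw [(alt_ev P h (k + 1)).1 ho, alt_succ', if_neg he, Module.End.mul_apply, sg'_self, map_smul,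
      smul_comm, (alt_ev P h k).2 he, q1, q2, q3]
    push_cast
    module

lemma pow_ev {s t : S} (h : s ≠ t) :
    ((sg' P s * sg' P t) ^ (M s t)) (ev s) = (P.r ^ (2 * M s t)) • ev s := by
  obtain ⟨q1, q2⟩ := qs_two_mul M h (P.h0 s t h)
  apply smul_right_injective _ P.r_ne
  simp only
  rw [← alt_mul_two, (alt_ev P h _).1 (even_two_mul _), q1, q2]
  push_cast
  module

omit [Fintype S] [DecidableEq S] in
lemma cc_nonneg {s t : S} (h : s ≠ t) : 0 ≤ cc M s t := by
  by_cases h0 : M s t = 0
  · rw [cc_of_zero M h0]; norm_num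
  have h2 := two_le_of_ne M h h0
  have h2' : (2 : ℝ) ≤ (M s t : ℝ) := by exact_mod_cast h2
  apply Real.cos_nonneg_of_neg_pi_div_two_le_of_le
  · have : 0 ≤ Real.pi / (M s t : ℝ) := by positivity
    linarith [Real.pi_pos]
  · apply div_le_div_of_nonneg_left Real.pi_pos.le (by norm_num) h2'

lemma decomp {s t : S} (h : s ≠ t) (v : S → ℂ) :
    ∃ (v' : S → ℂ) (a c : ℂ), v = v' + a • ev s + c • ev t ∧
      form (gram M P.x) v' (ev s) = 0 ∧ form (gram M P.x) v' (ev t) = 0 := by
  set p := form (gram M P.x) v (ev s) with hp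
  set p' := form (gram M P.x) v (ev t) with hp'
  have h1 := P.hc s t h
  have h2 := cc_nonneg (M := M) h
  have hd : (P.x ^ 2 - (2 * cc M s t) ^ 2 : ℝ) ≠ 0 := by nlinarith
  have hd' : ((P.x : ℂ) ^ 2 - (2 * (cc M s t : ℂ)) ^ 2) ≠ 0 := by exact_mod_cast hd
  set d : ℂ := (P.x : ℂ) ^ 2 - (2 * (cc M s t : ℂ)) ^ 2 with hdd
  refine ⟨v - ((P.x * p + 2 * cc M s t * p') / d) • ev s - ((2 * cc M s t * p + P.x * p') / d) • ev t,
    (P.x * p + 2 * cc M s t * p') / d, (2 * cc M s t * p + P.x * p') / d, by abel, ?_, ?_⟩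
  · rw [form_sub_left, form_sub_left, form_smul_left, form_smul_left, form_ev_ev, form_ev_ev,
      gram_self, gram_ne M _ h.symm, cc_symm M t s, ← hp]
    push_cast
    field_simp
    rw [hdd]; ring
  · rw [form_sub_left, form_sub_left, form_smul_left, form_smul_left, form_ev_ev, form_ev_ev,
      gram_self, gram_ne M _ h, ← hp']
    push_cast
    field_simp
    rw [hdd]; ring

lemma sg'_fix {s : S} {v : S → ℂ} (h : form (gram M P.x) v (ev s) = 0) : sg' P s v = v := by
  rw [rf_apply, h]; simp

lemma alt_fix {a b : Module.End ℂ (S → ℂ)} {v : S → ℂ} (ha : a v = v) (hb : b v = v) (k : ℕ) :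
    alt a b k v = v := by
  induction k with
  | zero => simp
  | succ k ih =>
    rw [alt_succ', Module.End.mul_apply]
    split_ifs
    · rw [ha, ih]
    · rw [hb, ih]

lemma braid (s t : S) : alt (sig P s) (sig P t) (M s t) = alt (sig P t) (sig P s) (M s t) := by
  by_cases h : s = t
  · subst h; rfl
  apply Units.ext
  have e1 := map_alt (Units.coeHom (Module.End ℂ (S → ℂ))) (sig P s) (sig P t) (M s t)
  have e2 := map_alt (Units.coeHom (Module.End ℂ (S → ℂ))) (sig P t) (sig P s) (M s t)
  simp only [Units.coeHom_apply] at e1 e2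
  rw [e1, e2]
  change alt (sg' P s) (sg' P t) (M s t) = alt (sg' P t) (sg' P s) (M s t)
  apply LinearMap.ext
  intro v
  obtain ⟨v', a, c, hv, h1, h2⟩ := decomp P h v
  have f1 := sg'_fix P h1
  have f2 := sg'_fix P h2
  have b2 := braid_ev P (Ne.symm h)
  rw [M.symmetric t s] at b2
  rw [hv, map_add, map_add, map_add, map_add, map_smul, map_smul, map_smul, map_smul,
    alt_fix f1 f2, alt_fix f2 f1, braid_ev P h, b2]

/-- The Burau type representation of the Artin group. -/
noncomputable def bur : Artin M →* Module.End ℂ (S → ℂ) :=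
  (Units.coeHom _).comp (Artin.lift (sig P) (braid P))

lemma bur_gen (s : S) : bur P (Artin.gen M s) = sg' P s := by
  simp [bur, sig]

lemma bur_gen_inv (s : S) : bur P (Artin.gen M s)⁻¹ = rf (gram M P.x) (conj P.r) s := by
  simp only [bur, MonoidHom.comp_apply, map_inv, Artin.lift_gen, Units.coeHom_apply]
  rfl

lemma form_sg' (s : S) (v w : S → ℂ) :
    form (gram M P.x) (sg' P s v) (sg' P s w) = form (gram M P.x) v w := by
  rw [rf_apply, rf_apply, form_sub_left, form_sub_right, form_sub_right, form_smul_left,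
    form_smul_left, form_smul_right, form_smul_right, form_ev_ev, gram_self,
    ← form_conj (gram_symm M P.x) w (ev s), P.hx, map_mul]
  linear_combination (form (gram M P.x) v (ev s) * conj (form (gram M P.x) w (ev s))
    * (P.r + conj P.r)) * P.hr

lemma form_bur (g : Artin M) (v w : S → ℂ) :
    form (gram M P.x) (bur P g v) (bur P g w) = form (gram M P.x) v w := by
  induction g using Artin.induction generalizing v w with
  | one => simp
  | gen s => rw [bur_gen, form_sg']
  | mul g h hg hh => rw [map_mul, Module.End.mul_apply, Module.End.mul_apply, hg, hh]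
  | inv g hg =>
    rw [← hg, ← Module.End.mul_apply, ← Module.End.mul_apply, ← map_mul, mul_inv_cancel, map_one]
    rfl

end Pool.Agent.H790Z.AP
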