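import Mathlib

set_option autoImplicit false

namespace Pool.Agent.H790Z.AP

/-- The alternating product `a b a ⋯` with `m` factors. -/
abbrev altProd {G : Type*} [Monoid G] (a b : G) (m : ℕ) : G :=
  ((List.range m).map (fun k => if Even k then a else b)).prod

/-- The Artin-Tits group of a Coxeter matrix. Mathlib codes `m = ∞` by `0`, for which the
relation below is trivial; it is also trivial on the diagonal, where `m = 1` and `s = t`. -/
abbrev ArtinTits {S : Type*} (M : CoxeterMatrix S) : Type _ :=
  PresentedGroup (Set.range (fun p : S × S =>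
    altProd (FreeGroup.of p.1) (FreeGroup.of p.2) (M p.1 p.2) *
      (altProd (FreeGroup.of p.2) (FreeGroup.of p.1) (M p.1 p.2))⁻¹))

/-- The standard generator of the Artin-Tits group attached to `s`. -/
def gen {S : Type*} (M : CoxeterMatrix S) (s : S) : ArtinTits M := PresentedGroup.of s

/-- The Coxeter graph: an edge `{s, t}` whenever `m s t ≥ 3` (including `∞`, coded by `0`). -/
def diagram {S : Type*} (M : CoxeterMatrix S) : SimpleGraph S where
  Adj s t := s ≠ t ∧ (3 ≤ M s t ∨ M s t = 0)
  symm := ⟨fun s t h => ⟨h.1.symm, by rw [M.symmetric t s]; exact h.2⟩⟩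
  loopless := ⟨fun _ h => h.1 rfl⟩

/-- The standard parabolic subgroup `A_T` generated by `T`. -/
def parabolic {S : Type*} (M : CoxeterMatrix S) (T : Set S) : Subgroup (ArtinTits M) :=
  Subgroup.closure (gen M '' T)

/-- `T` is a proper subset of `S` which is nonempty and induces a connected graph. -/
def ProperIrred {S : Type*} (M : CoxeterMatrix S) (T : Set S) : Prop :=
  T ≠ Set.univ ∧ ((diagram M).induce T).Connected

/-- `Δ` is the Garside element: the positive lift of the longest element of the Coxeter group,
that is, the product of the Artin generators along a reduced word of maximal length. -/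
def IsGarside {S : Type*} (M : CoxeterMatrix S) (Δ : ArtinTits M) : Prop :=
  ∃ ω : List S, M.toCoxeterSystem.IsReduced ω ∧
    (∀ w : M.Group, M.toCoxeterSystem.length w ≤ ω.length) ∧ Δ = (ω.map (gen M)).prod

/-- `X_P`: the union of the proper irreducible standard parabolic subgroups and `⟨Δ²⟩`. -/
def XP {S : Type*} (M : CoxeterMatrix S) (Δ : ArtinTits M) : Set (ArtinTits M) :=
  {g | (∃ T : Set S, ProperIrred M T ∧ g ∈ parabolic M T) ∨ g ∈ Subgroup.zpowers (Δ ^ 2)}

/-- `X_NP`: the union of the normalizers of the proper irreducible standard parabolic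
subgroups. -/
def XNP {S : Type*} (M : CoxeterMatrix S) : Set (ArtinTits M) :=
  {g | ∃ T : Set S, ProperIrred M T ∧ g ∈ Subgroup.normalizer (parabolic M T : Set (ArtinTits M))}

/-- The word length `d_X(1, g)`: the least number of factors from `X ∪ X⁻¹` with product `g`
(and `0` if there is no such product). -/
noncomputable def wordLength {G : Type*} [Group G] (X : Set G) (g : G) : ℕ :=
  sInf {n | ∃ l : List G, l.length = n ∧ (∀ x ∈ l, x ∈ X ∨ x⁻¹ ∈ X) ∧ l.prod = g}

end Pool.Agent.H790Z.AP
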