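import Mathlib

set_option autoImplicit false

namespace Pool.Agent.H790Z.AP

open Complex
open scoped ComplexConjugate

variable {S : Type*} [Fintype S]

/-- Hermitian form with a real symmetric Gram matrix -/
noncomputable def form (b : S → S → ℝ) (v w : S → ℂ) : ℂ :=
  ∑ s, ∑ t, (b s t : ℂ) * v s * conj (w t)

variable (b : S → S → ℝ)

lemma form_add_left (v v' w : S → ℂ) : form b (v + v') w = form b v w + form b v' w := by
  simp [form, mul_add, add_mul, Finset.sum_add_distrib]

lemma form_add_right (v w w' : S → ℂ) : form b v (w + w') = form b v w + form b v w' := by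
  simp [form, mul_add, Finset.sum_add_distrib]

lemma form_smul_left (a : ℂ) (v w : S → ℂ) : form b (a • v) w = a * form b v w := by
  simp only [form, Finset.mul_sum, Pi.smul_apply, smul_eq_mul]
  refine Finset.sum_congr rfl fun s _ => Finset.sum_congr rfl fun t _ => by ring

lemma form_smul_right (a : ℂ) (v w : S → ℂ) : form b v (a • w) = conj a * form b v w := by
  simp only [form, Finset.mul_sum, Pi.smul_apply, smul_eq_mul, map_mul]
  refine Finset.sum_congr rfl fun s _ => Finset.sum_congr rfl fun t _ => by ring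

lemma form_sub_left (v v' w : S → ℂ) : form b (v - v') w = form b v w - form b v' w := by
  simp [form, mul_sub, sub_mul, Finset.sum_sub_distrib]

lemma form_sub_right (v w w' : S → ℂ) : form b v (w - w') = form b v w - form b v w' := by
  simp [form, mul_sub, Finset.sum_sub_distrib]

lemma form_zero_left (w : S → ℂ) : form b 0 w = 0 := by simp [form]

variable {b}

lemma form_conj (hb : ∀ s t, b s t = b t s) (v w : S → ℂ) : conj (form b v w) = form b w v := by
  simp only [form, map_sum, map_mul, conj_ofReal, conj_conj]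
  rw [Finset.sum_comm]
  refine Finset.sum_congr rfl fun s _ => Finset.sum_congr rfl fun t _ => ?_
  rw [hb t s]; ring

lemma form_self_im (hb : ∀ s t, b s t = b t s) (v : S → ℂ) : (form b v v).im = 0 := by
  have := congrArg Complex.im (form_conj hb v v)
  simp only [conj_im] at this
  linarith

lemma form_self_eq (hb : ∀ s t, b s t = b t s) (v : S → ℂ) :
    form b v v = ((form b v v).re : ℂ) := by
  apply Complex.ext <;> simp [form_self_im hb]

lemma norm_form_le (v w : S → ℂ) : ‖form b v w‖ ≤ (∑ s, ∑ t, |b s t|) * ‖v‖ * ‖w‖ := by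
  unfold form
  rw [Finset.sum_mul, Finset.sum_mul]
  refine (norm_sum_le _ _).trans (Finset.sum_le_sum fun s _ => ?_)
  rw [Finset.sum_mul, Finset.sum_mul]
  refine (norm_sum_le _ _).trans (Finset.sum_le_sum fun t _ => ?_)
  rw [norm_mul, norm_mul, Complex.norm_real, Real.norm_eq_abs, Complex.norm_conj]
  have h1 := norm_le_pi_norm v s
  have h2 := norm_le_pi_norm w t
  gcongr

lemma continuous_form_re : Continuous (fun v : S → ℂ => (form b v v).re) := by
  unfold form
  fun_prop

/-- expansion of the quadratic form on a combination -/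
lemma form_comb_re (hb : ∀ s t, b s t = b t s) (a c : ℂ) (v w : S → ℂ) :
    (form b (a • v + c • w) (a • v + c • w)).re =
      ‖a‖ ^ 2 * (form b v v).re + ‖c‖ ^ 2 * (form b w w).re
        + 2 * (a * conj c * form b v w).re := by
  rw [form_add_left, form_add_right, form_add_right, form_smul_left, form_smul_left,
    form_smul_left, form_smul_left, form_smul_right, form_smul_right, form_smul_right,
    form_smul_right, ← form_conj hb v w]
  have h1 := form_self_im hb v
  have h2 := form_self_im hb w
  rw [Complex.sq_norm, Complex.sq_norm, normSq_apply, normSq_apply]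
  simp only [add_re, mul_re, mul_im, conj_re, conj_im, h1, h2]
  ring

/-- A bounded group of isometries of a form of signature `(n-1,1)` has an invariant
negative line. -/
lemma exists_invariant_line (hb : ∀ s t, b s t = b t s) {G : Type*} [Group G]
    (ρ : G →* Module.End ℂ (S → ℂ)) (H : Subgroup G)
    (hinv : ∀ g v w, form b (ρ g v) (ρ g w) = form b v w)
    (K : ℝ) (hK : ∀ g ∈ H, ∀ v, ‖ρ g v‖ ≤ K * ‖v‖)
    (w₀ : S → ℂ) (hneg : (form b w₀ w₀).re < 0)
    (u : S) (hpos : ∀ p : S → ℂ, p u = 0 → p ≠ 0 → 0 < (form b p p).re) :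
    ∃ v : S → ℂ, (form b v v).re < 0 ∧ ∀ g ∈ H, ∃ l : ℂ, ρ g v = l • v := by
  set C : Set (S → ℂ) := {v | ∀ g ∈ H, ‖ρ g v‖ ≤ 1} with hC
  have hclosed : IsClosed C := by
    have : C = ⋂ g ∈ H, {v | ‖ρ g v‖ ≤ 1} := by
      ext v; simp [hC]
    rw [this]
    refine isClosed_biInter fun g _ => ?_
    exact isClosed_le (continuous_norm.comp (LinearMap.continuous_of_finiteDimensional (ρ g)))
      continuous_const
  have hsub : C ⊆ Metric.closedBall 0 1 := by
    intro v hv
    have := hv 1 H.one_mem
    simpa using this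
  have hcomp : IsCompact C := (isCompact_closedBall (0 : S → ℂ) 1).of_isClosed_subset hclosed hsub
  -- a negative vector in `C`
  have hw0 : w₀ ≠ 0 := by
    rintro rfl
    simp [form_zero_left] at hneg
  have hn : 0 < ‖w₀‖ := norm_pos_iff.mpr hw0
  have hK1 : 1 ≤ K := by
    have := hK 1 H.one_mem w₀
    simp only [map_one, Module.End.one_apply] at this
    nlinarith
  set δ : ℝ := (K * ‖w₀‖)⁻¹ with hδ
  have hδpos : 0 < δ := by positivity
  have hmem : ((δ : ℂ) • w₀) ∈ C := by
    intro g hg
    rw [map_smul, norm_smul, Complex.norm_real, Real.norm_eq_abs, abs_of_pos hδpos]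
    have := hK g hg w₀
    calc δ * ‖ρ g w₀‖ ≤ δ * (K * ‖w₀‖) := by gcongr
      _ = 1 := by rw [hδ]; field_simp
  obtain ⟨v, hvC, hvmin⟩ := hcomp.exists_isMinOn ⟨_, hmem⟩
    (continuous_form_re (b := b)).continuousOn
  have hv : (form b v v).re < 0 := by
    have h1 : (form b v v).re ≤ (form b ((δ : ℂ) • w₀) ((δ : ℂ) • w₀)).re := hvmin hmem
    rw [form_smul_left, form_smul_right] at h1
    simp only [conj_ofReal, re_ofReal_mul] at h1
    have : δ * (δ * (form b w₀ w₀).re) < 0 := by
      apply mul_neg_of_pos_of_neg hδpos (mul_neg_of_pos_of_neg hδpos hneg)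
    linarith
  refine ⟨v, hv, fun g hg => ?_⟩
  set w := ρ g v with hw
  have hwC : w ∈ C := by
    intro g' hg'
    rw [hw, ← Module.End.mul_apply, ← map_mul]
    exact hvC _ (H.mul_mem hg' hg)
  have hww : (form b w w).re = (form b v v).re := by rw [hw, hinv]
  set μ := -(form b v v).re with hμ
  have hμpos : 0 < μ := by linarith
  -- the minimality gives `‖form v w‖ ≤ μ`
  have hle : ‖form b v w‖ ≤ μ := by
    by_cases h0 : form b v w = 0
    · rw [h0, norm_zero]; exact hμpos.le
    set z := form b v w with hz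
    have hzn : 0 < ‖z‖ := norm_pos_iff.mpr h0
    set c : ℂ := -(z / (‖z‖ : ℂ)) / 2 with hc
    have hcn : ‖c‖ = 1 / 2 := by
      rw [hc, norm_div, norm_neg, norm_div, Complex.norm_real, Real.norm_eq_abs,
        abs_of_pos hzn, div_self hzn.ne']
      simp
    have hmem2 : ((1 / 2 : ℂ) • v + c • w) ∈ C := by
      intro g' hg'
      rw [map_add, map_smul, map_smul]
      refine (norm_add_le _ _).trans ?_
      rw [norm_smul, norm_smul, hcn]
      have e1 := hvC g' hg'
      have e2 := hwC g' hg'
      have : ‖(1 / 2 : ℂ)‖ = 1 / 2 := by simp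
      rw [this]
      linarith
    have h1 : (form b v v).re ≤
        (form b ((1 / 2 : ℂ) • v + c • w) ((1 / 2 : ℂ) • v + c • w)).re := hvmin hmem2
    rw [form_comb_re hb, hcn, hww, ← hz] at h1
    have h2 : (1 / 2 : ℂ) * conj c * z = ((-(‖z‖ / 4) : ℝ) : ℂ) := by
      have hzz : conj z * z = ((‖z‖ : ℂ)) ^ 2 := by
        rw [mul_comm, Complex.mul_conj, Complex.normSq_eq_norm_sq]; push_cast; ring
      have hz' : ((‖z‖ : ℝ) : ℂ) ≠ 0 := by exact_mod_cast hzn.ne'
      rw [hc]
      simp only [map_div₀, map_neg, conj_ofReal, map_ofNat]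
      push_cast
      field_simp
      linear_combination (-4 : ℂ) * hzz
    rw [h2, ofReal_re] at h1
    have : ‖(1 / 2 : ℂ)‖ = 1 / 2 := by simp
    rw [this] at h1
    linarith
  have hvu : v u ≠ 0 := by
    intro h
    have hv0 : v ≠ 0 := by
      rintro h0
      rw [h0, form_zero_left] at hv
      simp at hv
    have := hpos v h hv0
    linarith
  set p : S → ℂ := (w u) • v + (-(v u)) • w with hp
  have hpu : p u = 0 := by simp [hp]; ring
  have hp0 : p = 0 := by
    by_contra hne
    have h1 := hpos p hpu hne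
    rw [hp, form_comb_re hb, hww, norm_neg] at h1
    have h2 : (w u * conj (-(v u)) * form b v w).re ≤ ‖w u‖ * ‖v u‖ * μ := by
      refine (Complex.re_le_norm _).trans ?_
      rw [norm_mul, norm_mul, Complex.norm_conj, norm_neg]
      gcongr
    have h3 : (form b v v).re = -μ := by rw [hμ]; ring
    rw [h3] at h1
    nlinarith [sq_nonneg (‖w u‖ - ‖v u‖)]
  refine ⟨w u / v u, ?_⟩
  have h4 : (v u) • w = (w u) • v := by
    have := hp0
    rw [hp, neg_smul, add_neg_eq_zero] at this
    exact this.symm
  calc w = (v u)⁻¹ • ((v u) • w) := by rw [smul_smul, inv_mul_cancel₀ hvu, one_smul]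
    _ = (w u / v u) • v := by rw [h4, smul_smul]; congr 1; field_simp

end Pool.Agent.H790Z.AP
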