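import Pool.Agent.H790Z.AP.Perron
import Pool.Agent.H790Z.AP.Defs

set_option autoImplicit false
set_option linter.unusedSectionVars false

namespace Pool.Agent.H790Z.AP

open Complex
open scoped ComplexConjugate
open Pool.Agent.Helper741

variable {S : Type*} [Fintype S] [DecidableEq S] {M : CoxeterMatrix S}

lemma cut_of_connected (h : (diagram M).Connected) : Cut M := by
  rintro A ⟨a, ha⟩ hA
  obtain ⟨b, hb⟩ := (Set.ne_univ_iff_exists_notMem A).mp hA
  obtain ⟨p⟩ := h.preconnected a b
  obtain ⟨d, -, h1, h2⟩ := p.exists_boundary_dart A ha hb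
  refine ⟨d.fst, h1, d.snd, h2, ?_⟩
  have := d.adj.2
  omega

lemma exists_third (h3 : 3 ≤ Fintype.card S) (s t : S) : ∃ u, u ≠ s ∧ u ≠ t := by
  by_contra hcon
  push Not at hcon
  have : (Finset.univ : Finset S) ⊆ {s, t} := by
    intro u _
    by_cases h : u = s
    · simp [h]
    · simp [hcon u h]
  have h1 := Finset.card_le_card this
  have h2 : ({s, t} : Finset S).card ≤ 2 := Finset.card_le_two
  rw [Finset.card_univ] at h1
  omega

lemma norm_sq_le_Nq (p : S → ℂ) : ‖p‖ ^ 2 ≤ Nq (fun s => ‖p s‖) := by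
  have h : ‖p‖ ≤ Real.sqrt (Nq (fun s => ‖p s‖)) := by
    rw [pi_norm_le_iff_of_nonneg (Real.sqrt_nonneg _)]
    intro s
    apply Real.le_sqrt_of_sq_le
    exact Finset.single_le_sum (f := fun s => ‖p s‖ ^ 2) (fun _ _ => sq_nonneg _)
      (Finset.mem_univ s)
  calc ‖p‖ ^ 2 ≤ Real.sqrt (Nq (fun s => ‖p s‖)) ^ 2 := by gcongr
    _ = _ := Real.sq_sqrt (Nq_nonneg _)

lemma exists_par {W : Type*} [Group W] [Finite W] (cs : CoxeterSystem M W) (hcut : Cut M)
    (h3 : 3 ≤ Fintype.card S) :
    ∃ (P : Par M) (ε : ℝ), 0 < ε ∧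
      (∀ (p : S → ℂ) (u : S), p u = 0 → ε * ‖p‖ ^ 2 ≤ (form (gram M P.x) p p).re) ∧
      (∃ w : S → ℂ, (form (gram M P.x) w w).re < 0) ∧
      (∀ s t, s ≠ t → P.r ^ (2 * M s t) ≠ 1) := by
  obtain ⟨x, ε, hε, hx2, hpos, hneg⟩ := exists_param cs hcut (by omega)
  have hpos' : ∀ (p : S → ℂ) (u : S), p u = 0 → ε * ‖p‖ ^ 2 ≤ (form (gram M x) p p).re := by
    intro p u hu
    exact le_trans (mul_le_mul_of_nonneg_left (norm_sq_le_Nq p) hε.le) (hpos p u hu)
  have hc : ∀ s t, s ≠ t → 2 * cc M s t < x := by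
    intro s t hst
    obtain ⟨u, hus, hut⟩ := exists_third h3 s t
    have h1 := hpos' (ev s + ev t) u (by simp [hus, hut])
    have h2 : (ev s + ev t : S → ℂ) ≠ 0 := by
      intro h
      have := congrFun h s
      simp [hst] at this
    have h4 : 0 < ‖(ev s + ev t : S → ℂ)‖ := norm_pos_iff.mpr h2
    rw [form_add_left, form_add_right, form_add_right, form_ev_ev, form_ev_ev, form_ev_ev,
      form_ev_ev, gram_self, gram_self, gram_ne M x hst, gram_ne M x hst.symm, cc_symm M t s] at h1
    simp only [add_re, ofReal_re] at h1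
    have : 0 < ε * ‖(ev s + ev t : S → ℂ)‖ ^ 2 := by positivity
    linarith
  have h0 : ∀ s t, s ≠ t → M s t ≠ 0 := by
    intro s t hst h
    have := hc s t hst
    rw [cc_of_zero M h] at this
    linarith
  obtain ⟨a, b, hab⟩ := Fintype.exists_pair_of_one_lt_card (α := S) (by omega)
  have hx0 : 0 < x := by
    have := hc a b hab
    have := cc_nonneg (M := M) hab
    linarith
  set φ := Real.arccos (x / 2) with hφ
  have hcos : Real.cos φ = x / 2 := Real.cos_arccos (by linarith) (by linarith)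
  have hφ0 : 0 < φ := Real.arccos_pos.mpr (by linarith)
  have hφπ : φ ≤ Real.pi := Real.arccos_le_pi _
  have hconj : conj (Complex.exp (φ * I)) = Complex.exp (-(φ * I)) := by
    rw [← Complex.exp_conj]; simp
  refine ⟨⟨x, Complex.exp (φ * I), ?_, ?_, hc, h0⟩, ε, hε, hpos', hneg, ?_⟩
  · rw [hconj, ← Complex.exp_add]; simp
  · rw [Complex.add_conj, Complex.exp_ofReal_mul_I_re, hcos]
    push_cast; ring
  · intro s t hst h
    change Complex.exp (φ * I) ^ (2 * M s t) = 1 at h
    rw [← Complex.exp_nat_mul, Complex.exp_eq_one_iff] at h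
    obtain ⟨n, hn⟩ := h
    have hm2 := two_le_of_ne M hst (h0 s t hst)
    have hm : (2 : ℝ) ≤ (M s t : ℝ) := by exact_mod_cast hm2
    have hlt : φ < Real.pi / (M s t : ℝ) := by
      by_contra hle
      push Not at hle
      have h5 : Real.cos φ ≤ Real.cos (Real.pi / (M s t : ℝ)) :=
        Real.cos_le_cos_of_nonneg_of_le_pi (by positivity) hφπ hle
      have h6 := hc s t hst
      unfold cc at h6
      linarith
    rw [lt_div_iff₀ (by linarith)] at hlt
    have hre : ((2 * M s t : ℕ) : ℝ) * φ = n * (2 * Real.pi) := by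
      have := congrArg Complex.im hn
      simpa using this
    push_cast at hre
    have hn0 : (0 : ℝ) < n := by
      have : 0 < (n : ℝ) * (2 * Real.pi) := by rw [← hre]; positivity
      exact (pos_iff_pos_of_mul_pos this).mpr (by positivity)
    have hn1 : (n : ℝ) < 1 := by
      have : (n : ℝ) * (2 * Real.pi) < 1 * (2 * Real.pi) := by rw [← hre]; linarith
      exact lt_of_mul_lt_mul_right this (by positivity)
    have h7 : (0 : ℤ) < n := by exact_mod_cast hn0
    have h8 : n < 1 := by exact_mod_cast hn1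
    omega

variable (P : Par M)

lemma gen_eq (s : S) : gen M s = Artin.gen M s := rfl

lemma bur_parabolic {T : Set S} {u : S} (hu : u ∉ T) {g : Artin M} (hg : g ∈ parabolic M T) :
    ∀ v, bur P g v u = v u := by
  unfold parabolic at hg
  induction hg using Subgroup.closure_induction with
  | mem x hx =>
    obtain ⟨s, hs, rfl⟩ := hx
    intro v
    have hsu : u ≠ s := by rintro rfl; exact hu hs
    rw [gen_eq, bur_gen, rf_apply]
    simp [hsu]
  | one => intro v; simp
  | mul x y _ _ hx hy => intro v; rw [map_mul, Module.End.mul_apply, hx, hy]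
  | inv x _ hx =>
    intro v
    rw [← hx (bur P x⁻¹ v), ← Module.End.mul_apply, ← map_mul, mul_inv_cancel, map_one]
    rfl

lemma bound_of_fix {ε : ℝ} (hε : 0 < ε)
    (hpos : ∀ (p : S → ℂ) (u : S), p u = 0 → ε * ‖p‖ ^ 2 ≤ (form (gram M P.x) p p).re)
    {g : Artin M} {u : S} (hg : ∀ v, bur P g v u = v u) (v : S → ℂ) :
    ‖bur P g v‖ ≤ (1 + 2 * (∑ s, ∑ t, |gram M P.x s t|) / ε) * ‖v‖ := by
  set B := ∑ s, ∑ t, |gram M P.x s t| with hB
  have hB0 : 0 ≤ B := Finset.sum_nonneg fun _ _ => Finset.sum_nonneg fun _ _ => abs_nonneg _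
  set d := bur P g v - v with hd
  have hdu : d u = 0 := by simp [hd, hg]
  have h1 := hpos d u hdu
  have h2 : bur P g v = (1 : ℂ) • d + (1 : ℂ) • v := by simp [hd]
  have h3 := congrArg Complex.re (form_bur P g v v)
  rw [h2, form_comb_re (gram_symm M P.x)] at h3
  simp only [norm_one, one_pow, one_mul, map_one] at h3
  have h4 : -(form (gram M P.x) d v).re ≤ B * ‖d‖ * ‖v‖ := by
    refine le_trans ?_ (norm_form_le d v)
    exact (neg_le_abs _).trans (Complex.abs_re_le_norm _)
  have h5 : ε * ‖d‖ ^ 2 ≤ 2 * (B * ‖d‖ * ‖v‖) := by linarith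
  have h6 : ‖d‖ ≤ 2 * B / ε * ‖v‖ := by
    rcases (norm_nonneg d).eq_or_lt with h | h
    · rw [← h]; positivity
    · rw [div_mul_eq_mul_div, le_div_iff₀ hε]
      have : ‖d‖ * (‖d‖ * ε) ≤ ‖d‖ * (2 * B * ‖v‖) := by nlinarith
      exact le_of_mul_le_mul_left this h
  have h7 : bur P g v = v + d := by simp [hd]
  rw [h7]
  refine (norm_add_le _ _).trans ?_
  linarith

lemma bur_center (hcut : Cut M) (h2 : 2 ≤ Fintype.card S) {z : Artin M}
    (hz : z ∈ Subgroup.center (Artin M)) (v : S → ℂ) : ‖bur P z v‖ = ‖v‖ := by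
  obtain ⟨a, b, hab⟩ := Fintype.exists_pair_of_one_lt_card (α := S) (by omega)
  have hx0 : 0 < P.x := by
    have := P.hc a b hab
    have := cc_nonneg (M := M) hab
    linarith
  have hx0' : (P.x : ℂ) ≠ 0 := by exact_mod_cast hx0.ne'
  have comm : ∀ s w, form (gram M P.x) w (ev s) • bur P z (ev s) =
      form (gram M P.x) (bur P z w) (ev s) • ev s := by
    intro s w
    have h1 : bur P z (sg' P s w) = sg' P s (bur P z w) := by
      rw [← bur_gen, ← Module.End.mul_apply, ← Module.End.mul_apply, ← map_mul, ← map_mul,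
        Subgroup.mem_center_iff.mp hz]
    rw [rf_apply, rf_apply, map_sub, map_smul, sub_right_inj, mul_smul, mul_smul] at h1
    exact smul_right_injective _ P.r_ne h1
  set l : S → ℂ := fun s => form (gram M P.x) (bur P z (ev s)) (ev s) / P.x with hl
  have eig : ∀ s, bur P z (ev s) = l s • ev s := by
    intro s
    have h1 := comm s (ev s)
    rw [form_ev_ev, gram_self] at h1
    apply smul_right_injective _ hx0'
    simp only
    rw [h1, smul_smul, hl]
    congr 1
    field_simp
  have hall : ∀ s, l s = l a := by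
    by_contra hne
    push Not at hne
    obtain ⟨s, hs, t, ht, hst2⟩ := hcut {s | l s = l a} ⟨a, rfl⟩ (by
      intro h
      obtain ⟨j, hj⟩ := hne
      have : j ∈ {s | l s = l a} := by rw [h]; trivial
      exact hj this)
    have hst : s ≠ t := by rintro rfl; exact ht hs
    have h1 := comm s (ev t)
    rw [eig s, eig t, form_smul_left, form_ev_ev, smul_smul] at h1
    have h3 := congrFun h1 s
    simp only [ev, Pi.smul_apply, Pi.single_eq_same, smul_eq_mul, mul_one] at h3
    have h4 : ((gram M P.x t s : ℝ) : ℂ) ≠ 0 := by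
      rw [gram_ne M _ hst.symm, cc_symm M t s]
      have := cc_ne_zero (M := M) hst hst2
      exact_mod_cast mul_ne_zero (by norm_num) this
    apply ht
    change l t = l a
    have h5 : l s = l a := hs
    rw [← h5]
    apply mul_left_cancel₀ h4
    rw [h3]; ring
  have hscal : bur P z v = l a • v := by
    have h7 : v = ∑ i, v i • ev i := by
      ext j
      simp [ev, Finset.sum_apply, Pi.single_apply]
    conv_lhs => rw [h7]
    conv_rhs => rw [h7]
    rw [map_sum, Finset.smul_sum]
    refine Finset.sum_congr rfl fun i _ => ?_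
    rw [map_smul, eig, hall, smul_comm]
  have hn : ‖l a‖ = 1 := by
    have h1 := form_bur P z (ev a) (ev a)
    rw [eig, form_smul_left, form_smul_right, form_ev_ev, gram_self, ← mul_assoc,
      Complex.mul_conj, Complex.normSq_eq_norm_sq] at h1
    have h2 : ((‖l a‖ ^ 2 : ℝ) : ℂ) = 1 := by
      apply mul_right_cancel₀ hx0'
      rw [h1, one_mul]
    have h3 : ‖l a‖ ^ 2 = 1 := by exact_mod_cast h2
    nlinarith [norm_nonneg (l a)]
  rw [hscal, norm_smul, hn, one_mul]

lemma alt_add {G : Type*} [Monoid G] (a b : G) (m k : ℕ) :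
    alt a b (m + k) = alt a b m * (if Even m then alt a b k else alt b a k) := by
  induction m generalizing a b with
  | zero => simp
  | succ m ih =>
    rw [show m + 1 + k = (m + k) + 1 by ring, alt_succ, alt_succ, ih, mul_assoc]
    by_cases h : Even m <;> simp [h, Nat.even_add_one]

lemma pow_comm_of_braid {G : Type*} [Monoid G] {a b : G} {m : ℕ} (h : alt a b m = alt b a m) :
    (a * b) ^ m = (b * a) ^ m := by
  rw [← alt_mul_two, ← alt_mul_two, two_mul, alt_add, alt_add, h]

lemma gen_comm (s t : S) : Commute (Artin.gen M s) ((Artin.gen M s * Artin.gen M t) ^ M s t) := by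
  have h := pow_comm_of_braid (Artin.rel (M := M) s t)
  have h2 : ∀ k : ℕ, (Artin.gen M s * Artin.gen M t) ^ k * Artin.gen M s =
      Artin.gen M s * (Artin.gen M t * Artin.gen M s) ^ k := by
    intro k
    induction k with
    | zero => simp
    | succ k ih2 => rw [pow_succ', mul_assoc, ih2, pow_succ']; simp only [mul_assoc]
  change _ * _ = _ * _
  rw [h2, h]

lemma mem_normalizer (s t : S) : (Artin.gen M s * Artin.gen M t) ^ M s t ∈
    Subgroup.normalizer (parabolic M {s} : Set (ArtinTits M)) := by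
  apply Subgroup.centralizer_le_normalizer
  unfold parabolic
  rw [Subgroup.centralizer_closure, Subgroup.mem_centralizer_iff]
  rintro _ ⟨s', hs', rfl⟩
  rw [Set.mem_singleton_iff] at hs'
  subst hs'
  exact gen_comm s' t

lemma properIrred_singleton (h2 : 2 ≤ Fintype.card S) (s : S) : ProperIrred M {s} := by
  constructor
  · intro h
    obtain ⟨a, b, hab⟩ := Fintype.exists_pair_of_one_lt_card (α := S) (by omega)
    have ha : a ∈ ({s} : Set S) := by rw [h]; trivial
    have hb : b ∈ ({s} : Set S) := by rw [h]; trivial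
    exact hab (ha.trans hb.symm)
  · exact SimpleGraph.Connected.of_subsingleton

/-- the normalizer of a generator has unbounded image -/
lemma normalizer_unbounded (h3 : 3 ≤ Fintype.card S) {ε : ℝ} (hε : 0 < ε)
    (hpos : ∀ (p : S → ℂ) (u : S), p u = 0 → ε * ‖p‖ ^ 2 ≤ (form (gram M P.x) p p).re)
    (hneg : ∃ w : S → ℂ, (form (gram M P.x) w w).re < 0)
    (hr : ∀ s t, s ≠ t → P.r ^ (2 * M s t) ≠ 1) (s : S) (K : ℝ) :
    ¬ ∀ g ∈ Subgroup.normalizer (parabolic M {s} : Set (ArtinTits M)), ∀ v,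
      ‖bur P g v‖ ≤ K * ‖v‖ := by
  intro hK
  obtain ⟨w₀, hw₀⟩ := hneg
  obtain ⟨v, hv, hline⟩ := exists_invariant_line (gram_symm M P.x) (bur P) _ (form_bur P) K hK
    w₀ hw₀ s (by
      intro p hp hp0
      have h1 := hpos p s hp
      have : 0 < ‖p‖ := norm_pos_iff.mpr hp0
      have : 0 < ε * ‖p‖ ^ 2 := by positivity
      linarith)
  have key : ∀ t, s ≠ t → form (gram M P.x) v (ev s) = 0 ∧ form (gram M P.x) v (ev t) = 0 := by
    intro t hst
    obtain ⟨l, hl⟩ := hline _ (mem_normalizer s t)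
    obtain ⟨v', a, c, hv', h1, h2⟩ := decomp P hst v
    have f1 := sg'_fix P h1
    have f2 := sg'_fix P h2
    have e0 : bur P ((Artin.gen M s * Artin.gen M t) ^ M s t) = (sg' P s * sg' P t) ^ M s t := by
      rw [map_pow, map_mul, bur_gen, bur_gen]
    have e1 : bur P ((Artin.gen M s * Artin.gen M t) ^ M s t) = (sg' P t * sg' P s) ^ M t s := by
      rw [pow_comm_of_braid (Artin.rel (M := M) s t), map_pow, map_mul, bur_gen, bur_gen,
        M.symmetric t s]
    have e2 : bur P ((Artin.gen M s * Artin.gen M t) ^ M s t) v' = v' := by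
      rw [e0, ← alt_mul_two]; exact alt_fix f1 f2 _
    have e3 : bur P ((Artin.gen M s * Artin.gen M t) ^ M s t) (ev s) =
        (P.r ^ (2 * M s t)) • ev s := by rw [e0, pow_ev P hst]
    have e4 : bur P ((Artin.gen M s * Artin.gen M t) ^ M s t) (ev t) =
        (P.r ^ (2 * M s t)) • ev t := by rw [e1, pow_ev P hst.symm, M.symmetric t s]
    have e5 : (l - 1) • v = (P.r ^ (2 * M s t) - 1) • (a • ev s + c • ev t) := by
      rw [sub_smul, ← hl, one_smul]
      conv_lhs => rw [hv']
      rw [map_add, map_add, map_smul, map_smul, e2, e3, e4]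
      module
    obtain ⟨u, hus, hut⟩ := exists_third h3 s t
    have hl1 : l - 1 = 0 := by
      by_contra hne
      have h4 := congrFun e5 u
      simp only [ev, Pi.smul_apply, Pi.add_apply, Pi.single_eq_of_ne hus, Pi.single_eq_of_ne hut,
        smul_eq_mul, mul_zero, add_zero] at h4
      have h5 := hpos v u ((mul_eq_zero.mp h4).resolve_left hne)
      have : 0 ≤ ε * ‖v‖ ^ 2 := by positivity
      linarith
    rw [hl1, zero_smul] at e5
    have e6 : a • ev s + c • ev t = 0 :=
      (smul_eq_zero.mp e5.symm).resolve_left (sub_ne_zero.mpr (hr s t hst))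
    rw [add_assoc, e6, add_zero] at hv'
    rw [hv']
    exact ⟨h1, h2⟩
  have hall : ∀ t, form (gram M P.x) v (ev t) = 0 := by
    intro t
    by_cases h : s = t
    · subst h
      obtain ⟨u, hus, -⟩ := exists_third h3 s s
      exact (key u hus.symm).1
    · exact (key t h).2
  rw [form_expand] at hv
  simp [hall] at hv

lemma exists_word {G : Type*} [Group G] {X : Set G} {g : G} (hg : g ∈ Subgroup.closure X) :
    ∃ l : List G, (∀ x ∈ l, x ∈ X ∨ x⁻¹ ∈ X) ∧ l.prod = g := by
  induction hg using Subgroup.closure_induction with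
  | mem x hx => exact ⟨[x], by simp [hx], by simp⟩
  | one => exact ⟨[], by simp, by simp⟩
  | mul x y _ _ hx hy =>
    obtain ⟨l, h1, h2⟩ := hx
    obtain ⟨l', h1', h2'⟩ := hy
    refine ⟨l ++ l', ?_, by rw [List.prod_append, h2, h2']⟩
    intro z hz
    rcases List.mem_append.mp hz with h | h
    · exact h1 z h
    · exact h1' z h
  | inv x _ hx =>
    obtain ⟨l, h1, h2⟩ := hx
    refine ⟨(l.map (fun y => y⁻¹)).reverse, ?_, by rw [← h2, List.prod_inv_reverse]⟩
    intro z hz
    rw [List.mem_reverse, List.mem_map] at hz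
    obtain ⟨y, hy, rfl⟩ := hz
    rw [inv_inv]
    exact (h1 y hy).symm

theorem main (hfin : Finite M.Group) (hirr : (diagram M).Connected) (h3 : 3 ≤ Fintype.card S)
    (Δ : ArtinTits M) (hΔ : IsGarside M Δ) (N : ℕ) :
    ∃ g ∈ XNP M, N < wordLength (XP M Δ) g := by
  have hcut := cut_of_connected hirr
  obtain ⟨P, ε, hε, hpos, hneg, hr⟩ := exists_par M.toCoxeterSystem hcut h3
  have hcen : Δ ^ 2 ∈ Subgroup.center (Artin M) := by
    obtain ⟨ω, h1, h2, rfl⟩ := hΔ
    have h4 := delta_sq_center (cs := M.toCoxeterSystem) (w₀ := M.toCoxeterSystem.wordProd ω)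
      (by intro w; rw [h1.eq]; exact h2 w)
    rw [sec_eq _ ω h1] at h4
    rw [sq]
    exact h4
  set K := 1 + 2 * (∑ s, ∑ t, |gram M P.x s t|) / ε with hK
  have hK1 : 1 ≤ K := by
    have : 0 ≤ ∑ s, ∑ t, |gram M P.x s t| :=
      Finset.sum_nonneg fun _ _ => Finset.sum_nonneg fun _ _ => abs_nonneg _
    have : 0 ≤ 2 * (∑ s, ∑ t, |gram M P.x s t|) / ε := by positivity
    linarith
  have hinv : ∀ x ∈ XP M Δ, x⁻¹ ∈ XP M Δ := by
    rintro x (⟨T, hT, hx⟩ | hx)
    · exact Or.inl ⟨T, hT, Subgroup.inv_mem _ hx⟩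
    · exact Or.inr (Subgroup.inv_mem _ hx)
  have hX : ∀ x ∈ XP M Δ, ∀ v, ‖bur P x v‖ ≤ K * ‖v‖ := by
    rintro x (⟨T, hT, hx⟩ | hx) v
    · obtain ⟨u, hu⟩ := (Set.ne_univ_iff_exists_notMem T).mp hT.1
      exact bound_of_fix P hε hpos (bur_parabolic P hu hx) v
    · have : x ∈ Subgroup.center (Artin M) := (Subgroup.zpowers_le.mpr hcen) hx
      rw [bur_center P hcut (by omega) this]
      nlinarith [norm_nonneg v]
  have hlist : ∀ l : List (Artin M), (∀ x ∈ l, x ∈ XP M Δ ∨ x⁻¹ ∈ XP M Δ) →
      ∀ v, ‖bur P l.prod v‖ ≤ K ^ l.length * ‖v‖ := by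
    intro l
    induction l with
    | nil => intro _ v; simp
    | cons x l ih =>
      intro h v
      have hx : x ∈ XP M Δ := by
        rcases h x (by simp) with h1 | h1
        · exact h1
        · simpa using hinv _ h1
      rw [List.prod_cons, map_mul, Module.End.mul_apply, List.length_cons, pow_succ']
      refine (hX x hx _).trans ?_
      rw [mul_assoc]
      exact mul_le_mul_of_nonneg_left (ih (fun y hy => h y (by simp [hy])) v) (by linarith)
  have hgen : ∀ g : Artin M, g ∈ Subgroup.closure (XP M Δ) := by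
    intro g
    have h1 : Subgroup.closure (Set.range (Artin.gen M)) ≤ Subgroup.closure (XP M Δ) := by
      apply Subgroup.closure_mono
      rintro _ ⟨s, rfl⟩
      exact Or.inl ⟨{s}, properIrred_singleton (by omega) s,
        Subgroup.subset_closure ⟨s, rfl, rfl⟩⟩
    apply h1
    rw [Artin.closure_range_gen]; trivial
  by_contra hcon
  push Not at hcon
  obtain ⟨s, -, -⟩ := Fintype.exists_pair_of_one_lt_card (α := S) (by omega)
  apply normalizer_unbounded P h3 hε hpos hneg hr s (K ^ N)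
  intro g hg v
  have h1 := hcon g ⟨{s}, properIrred_singleton (by omega) s, hg⟩
  have hne : {n | ∃ l : List (ArtinTits M), l.length = n ∧
      (∀ x ∈ l, x ∈ XP M Δ ∨ x⁻¹ ∈ XP M Δ) ∧ l.prod = g}.Nonempty := by
    obtain ⟨l, h2, h4⟩ := exists_word (hgen g)
    exact ⟨l.length, l, rfl, h2, h4⟩
  obtain ⟨l, h2, h4, h5⟩ := Nat.sInf_mem hne
  have h6 : l.length ≤ N := by rw [h2]; exact h1
  have h7 := hlist l h4 v
  rw [h5] at h7
  refine h7.trans ?_
  exact mul_le_mul_of_nonneg_right (pow_le_pow_right₀ hK1 h6) (norm_nonneg v)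

end Pool.Agent.H790Z.AP
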