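import Pool.Agent.H790Z.AP.Burau

set_option autoImplicit false
set_option linter.unusedSectionVars false

namespace Pool.Agent.H790Z.AP

open Complex
open scoped ComplexConjugate
open Pool.Agent.Helper741

variable {S : Type*} [Fintype S] [DecidableEq S]

/-- cut form of connectedness of the Coxeter diagram -/
def Cut (M : CoxeterMatrix S) : Prop :=
  ∀ A : Set S, A.Nonempty → A ≠ Set.univ → ∃ s ∈ A, ∃ t, t ∉ A ∧ M s t ≠ 2

/-- off diagonal coefficients -/
noncomputable def cof (M : CoxeterMatrix S) (s t : S) : ℝ := if s = t then 0 else 2 * cc M s t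

/-- adjacency quadratic form -/
noncomputable def Cq (M : CoxeterMatrix S) (y : S → ℝ) : ℝ := ∑ s, ∑ t, cof M s t * y s * y t

/-- sum of squares -/
noncomputable def Nq (y : S → ℝ) : ℝ := ∑ s, y s ^ 2

variable {M : CoxeterMatrix S}

lemma cof_nonneg (s t : S) : 0 ≤ cof M s t := by
  unfold cof
  split_ifs with h
  · exact le_rfl
  · have := cc_nonneg (M := M) h
    linarith

lemma cof_symm (s t : S) : cof M s t = cof M t s := by
  unfold cof
  by_cases h : s = t
  · subst h; rfl
  · rw [if_neg h, if_neg (Ne.symm h), cc_symm]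

lemma cof_pos {s t : S} (h : s ≠ t) (h2 : M s t ≠ 2) : 0 < cof M s t := by
  have h1 := cc_ne_zero (M := M) h h2
  have h3 := cc_nonneg (M := M) h
  unfold cof
  rw [if_neg h]
  have : 0 < cc M s t := lt_of_le_of_ne h3 (Ne.symm h1)
  linarith

lemma gram_eq (x : ℝ) (s t : S) : gram M x s t = (if s = t then x else 0) - cof M s t := by
  unfold gram cof
  split_ifs <;> ring

lemma Nq_nonneg (y : S → ℝ) : 0 ≤ Nq y := Finset.sum_nonneg fun _ _ => sq_nonneg _

lemma Nq_pos {y : S → ℝ} (h : y ≠ 0) : 0 < Nq y := by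
  obtain ⟨s, hs⟩ := Function.ne_iff.mp h
  apply Finset.sum_pos' (fun _ _ => sq_nonneg _) ⟨s, Finset.mem_univ _, ?_⟩
  have : y s ≠ 0 := hs
  positivity

lemma form_re_eq (x : ℝ) (v : S → ℂ) : (form (gram M x) v v).re =
    x * Nq (fun s => ‖v s‖) - ∑ s, ∑ t, cof M s t * (v s * conj (v t)).re := by
  unfold form Nq
  rw [re_sum, Finset.mul_sum, ← Finset.sum_sub_distrib]
  refine Finset.sum_congr rfl fun s _ => ?_
  rw [re_sum]
  have : ∀ t, (((gram M x s t : ℝ) : ℂ) * v s * conj (v t)).re =
      (if s = t then x * ‖v s‖ ^ 2 else 0) - cof M s t * (v s * conj (v t)).re := by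
    intro t
    rw [mul_assoc, re_ofReal_mul, gram_eq]
    split_ifs with h
    · subst h
      rw [Complex.mul_conj, Complex.normSq_eq_norm_sq, ofReal_re]
      ring
    · ring
  simp only [this, Finset.sum_sub_distrib, Finset.sum_ite_eq, Finset.mem_univ, if_true]

lemma form_re_ge (x : ℝ) (v : S → ℂ) :
    x * Nq (fun s => ‖v s‖) - Cq M (fun s => ‖v s‖) ≤ (form (gram M x) v v).re := by
  rw [form_re_eq]
  apply sub_le_sub_left
  refine Finset.sum_le_sum fun s _ => Finset.sum_le_sum fun t _ => ?_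
  rw [mul_assoc]
  apply mul_le_mul_of_nonneg_left _ (cof_nonneg s t)
  refine (Complex.re_le_norm _).trans ?_
  rw [norm_mul, Complex.norm_conj]

lemma form_re_real (x : ℝ) (y : S → ℝ) :
    (form (gram M x) (fun s => (y s : ℂ)) (fun s => (y s : ℂ))).re = x * Nq y - Cq M y := by
  rw [form_re_eq]
  simp only [Nq, Cq, Complex.norm_real, Real.norm_eq_abs, sq_abs, conj_ofReal, ← ofReal_mul,
    ofReal_re, mul_assoc]

lemma Cq_smul (a : ℝ) (y : S → ℝ) : Cq M (a • y) = a ^ 2 * Cq M y := by
  simp only [Cq, Finset.mul_sum, Pi.smul_apply, smul_eq_mul]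
  refine Finset.sum_congr rfl fun s _ => Finset.sum_congr rfl fun t _ => by ring

lemma Nq_smul (a : ℝ) (y : S → ℝ) : Nq (a • y) = a ^ 2 * Nq y := by
  simp only [Nq, Finset.mul_sum, Pi.smul_apply, smul_eq_mul]
  refine Finset.sum_congr rfl fun s _ => by ring

lemma Cq_le_abs (y : S → ℝ) : Cq M y ≤ Cq M (fun s => |y s|) := by
  refine Finset.sum_le_sum fun s _ => Finset.sum_le_sum fun t _ => ?_
  rw [mul_assoc, mul_assoc]
  apply mul_le_mul_of_nonneg_left _ (cof_nonneg s t)
  rw [← abs_mul]; exact le_abs_self _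

lemma bil_self (y : S → ℝ) : ∑ i, y i * coroot M i y = 2 * Nq y - Cq M y := by
  unfold Nq Cq
  rw [Finset.mul_sum, ← Finset.sum_sub_distrib]
  refine Finset.sum_congr rfl fun s _ => ?_
  rw [coroot_apply, Finset.mul_sum]
  have : ∀ t, y s * (-2 * cc M s t * y t) =
      (if s = t then 2 * y s ^ 2 else 0) - cof M s t * y s * y t := by
    intro t
    unfold cof
    split_ifs with h
    · subst h; rw [cc_self]; ring
    · ring
  simp only [this, Finset.sum_sub_distrib, Finset.sum_ite_eq, Finset.mem_univ, if_true]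

/-- The Tits form of a finite irreducible Coxeter group is positive definite. -/
lemma tits_pos {W : Type*} [Group W] [Finite W] (cs : CoxeterSystem M W) (hcut : Cut M)
    {y : S → ℝ} (hy : y ≠ 0) : Cq M y < 2 * Nq y := by
  have := Fintype.ofFinite W
  set H : (S → ℝ) → (S → ℝ) → ℝ := fun a b => ∑ w : W, geo cs w a ⬝ᵥ geo cs w b with hH
  have Hpos : ∀ a, a ≠ 0 → 0 < H a a := by
    intro a ha
    apply Finset.sum_pos' (fun w _ => Finset.sum_nonneg fun i _ => mul_self_nonneg _)
      ⟨1, Finset.mem_univ _, ?_⟩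
    rw [map_one, Module.End.one_apply]
    have := Nq_pos ha
    simpa [Nq, dotProduct, sq] using this
  have Hinv : ∀ i a b, H (sg M i a) (sg M i b) = H a b := by
    intro i a b
    simp only [hH]
    rw [← Equiv.sum_comp (Equiv.mulRight (cs.simple i)) (fun w => geo cs w a ⬝ᵥ geo cs w b)]
    refine Finset.sum_congr rfl fun w _ => ?_
    simp only [Equiv.coe_mulRight, map_mul, geo_simple, Module.End.mul_apply]
  have Hsymm : ∀ a b, H a b = H b a := by
    intro a b
    simp only [hH, dotProduct_comm]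
  have key : ∀ i a, coroot M i a * H (ee i) (ee i) = 2 * H a (ee i) := by
    intro i a
    have h1 := Hinv i a (ee i)
    rw [sg_ee_self, sg_apply] at h1
    have h2 : H (a - coroot M i a • ee i) (-ee i) =
        -H a (ee i) + coroot M i a * H (ee i) (ee i) := by
      simp only [hH, map_sub, map_smul, map_neg, dotProduct_neg, sub_dotProduct, smul_dotProduct,
        smul_eq_mul, Finset.mul_sum, ← Finset.sum_neg_distrib, ← Finset.sum_add_distrib]
      refine Finset.sum_congr rfl fun w _ => by ring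
    linarith
  obtain ⟨i₀, -⟩ := Function.ne_iff.mp hy
  have hall : ∀ i, H (ee i) (ee i) = H (ee i₀) (ee i₀) := by
    by_contra hne
    push Not at hne
    obtain ⟨s, hs, t, ht, h2⟩ := hcut {i | H (ee i) (ee i) = H (ee i₀) (ee i₀)} ⟨i₀, rfl⟩ (by
      intro h
      obtain ⟨j, hj⟩ := hne
      have : j ∈ {i | H (ee i) (ee i) = H (ee i₀) (ee i₀)} := by rw [h]; trivial
      exact hj this)
    have hst : s ≠ t := by rintro rfl; exact ht hs
    have k1 := key s (ee t)
    have k2 := key t (ee s)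
    rw [coroot_ee] at k1 k2
    rw [cc_symm M t s, Hsymm (ee s) (ee t), ← k1] at k2
    have h3 := cc_ne_zero (M := M) hst h2
    have h4 : H (ee t) (ee t) = H (ee s) (ee s) := by
      have : cc M s t * (H (ee t) (ee t) - H (ee s) (ee s)) = 0 := by linarith
      have := (mul_eq_zero.mp this).resolve_left h3
      linarith
    apply ht
    change H (ee t) (ee t) = H (ee i₀) (ee i₀)
    rw [h4]; exact hs
  have hd := Hpos (ee i₀) (ee_ne_zero i₀)
  have h5 : (2 * Nq y - Cq M y) * H (ee i₀) (ee i₀) = 2 * H y y := by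
    rw [← bil_self, Finset.sum_mul]
    have h6 : H y y = ∑ i, y i * H y (ee i) := by
      have h7 : y = ∑ i, y i • ee i := by
        ext j
        simp [ee, Finset.sum_apply, Pi.single_apply]
      have h8 : ∀ w : W, geo cs w y ⬝ᵥ geo cs w y = ∑ i, y i * (geo cs w y ⬝ᵥ geo cs w (ee i)) := by
        intro w
        conv_lhs => rw [show geo cs w y ⬝ᵥ geo cs w y = geo cs w y ⬝ᵥ geo cs w (∑ i, y i • ee i) by
          rw [← h7]]
        rw [map_sum, dotProduct_sum]
        refine Finset.sum_congr rfl fun i _ => ?_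
        rw [map_smul, dotProduct_smul, smul_eq_mul]
      simp only [hH, h8, Finset.mul_sum]
      rw [Finset.sum_comm]
    rw [h6, Finset.mul_sum]
    refine Finset.sum_congr rfl fun i _ => ?_
    rw [← hall i, mul_assoc, key]; ring
  have h9 := Hpos y hy
  nlinarith

lemma continuous_Cq : Continuous (Cq M) := by
  unfold Cq; fun_prop

lemma continuous_Nq : Continuous (Nq : (S → ℝ) → ℝ) := by
  unfold Nq; fun_prop

lemma Nq_single_add (y : S → ℝ) (t : S) (ht : y t = 0) (a : ℝ) :
    Nq (y + Pi.single t a) = Nq y + a ^ 2 := by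
  unfold Nq
  have : ∀ s, (y + Pi.single t a : S → ℝ) s ^ 2 = y s ^ 2 + (if s = t then a ^ 2 else 0) := by
    intro s
    by_cases h : s = t
    · subst h; simp [ht]
    · simp [h]
  simp only [this, Finset.sum_add_distrib, Finset.sum_ite_eq', Finset.mem_univ, if_true]

lemma Cq_single_add (y : S → ℝ) (t : S) (a : ℝ) :
    Cq M (y + Pi.single t a) = Cq M y + 2 * a * ∑ s, cof M s t * y s := by
  unfold Cq
  have h0 : cof M t t = 0 := by simp [cof]
  have : ∀ s u, cof M s u * (y + Pi.single t a : S → ℝ) s * (y + Pi.single t a : S → ℝ) u =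
      cof M s u * y s * y u + (if u = t then a * (cof M s t * y s) else 0)
        + (if s = t then a * (cof M u t * y u) else 0) := by
    intro s u
    by_cases h : s = t <;> by_cases h' : u = t
    · subst h; subst h'; simp [h0]
    · subst h; simp [h', cof_symm u s]; ring
    · subst h'; simp [h]; ring
    · simp [h, h']
  simp only [this, Finset.sum_add_distrib, Finset.sum_ite_eq', Finset.mem_univ, if_true]
  rw [Finset.sum_comm (f := fun s u => if s = t then a * (cof M u t * y u) else 0)]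
  simp only [Finset.sum_ite_eq', Finset.mem_univ, if_true, ← Finset.mul_sum]
  ring

/-- choice of the deformation parameter -/
lemma exists_param {W : Type*} [Group W] [Finite W] (cs : CoxeterSystem M W) (hcut : Cut M)
    (h2 : 2 ≤ Fintype.card S) :
    ∃ x ε : ℝ, 0 < ε ∧ x < 2 ∧
      (∀ (p : S → ℂ) (u : S), p u = 0 → ε * Nq (fun s => ‖p s‖) ≤ (form (gram M x) p p).re) ∧
      ∃ w : S → ℂ, (form (gram M x) w w).re < 0 := by
  set K : Set (S → ℝ) := {y | Nq y = 1 ∧ ∃ u, y u = 0} with hK
  have hclosed : IsClosed K := by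
    have : K = {y | Nq y = 1} ∩ ⋃ u, {y : S → ℝ | y u = 0} := by
      ext y; simp [hK]
    rw [this]
    exact (isClosed_eq continuous_Nq continuous_const).inter
      (isClosed_iUnion_of_finite fun u => isClosed_eq (continuous_apply u) continuous_const)
  have hsub : K ⊆ Metric.closedBall 0 1 := by
    intro y hy
    rw [mem_closedBall_zero_iff, pi_norm_le_iff_of_nonneg zero_le_one]
    intro s
    have h1 : y s ^ 2 ≤ Nq y :=
      Finset.single_le_sum (f := fun s => y s ^ 2) (fun _ _ => sq_nonneg _) (Finset.mem_univ s)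
    rw [hy.1] at h1
    rw [Real.norm_eq_abs]
    exact abs_le_one_iff_mul_self_le_one.mpr (by nlinarith)
  have hcomp : IsCompact K := (isCompact_closedBall (0 : S → ℝ) 1).of_isClosed_subset hclosed hsub
  obtain ⟨a, b, hab⟩ := Fintype.exists_pair_of_one_lt_card (α := S) (by omega)
  have hne : K.Nonempty := by
    refine ⟨Pi.single a 1, ?_, b, by simp [hab.symm]⟩
    have := Nq_single_add (0 : S → ℝ) a rfl 1
    simpa [Nq] using this
  obtain ⟨y₁, hy₁, hmax⟩ := hcomp.exists_isMaxOn hne (continuous_Cq (M := M)).continuousOn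
  set y₀ : S → ℝ := fun s => |y₁ s| with hy₀
  have hy₀K : y₀ ∈ K := by
    obtain ⟨h1, u, hu⟩ := hy₁
    refine ⟨?_, u, by simp [hy₀, hu]⟩
    rw [← h1]; simp [Nq, hy₀]
  set l := Cq M y₀ with hl
  have hmax' : ∀ y ∈ K, Cq M y ≤ l := fun y hy => (hmax hy).trans (Cq_le_abs y₁)
  have hray : ∀ (y : S → ℝ) (u : S), y u = 0 → Cq M y ≤ l * Nq y := by
    intro y u hu
    by_cases h0 : y = 0
    · subst h0; simp [Cq, Nq]
    have hp := Nq_pos h0
    set c := (Real.sqrt (Nq y))⁻¹ with hc
    have hc2 : c ^ 2 * Nq y = 1 := by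
      rw [hc, inv_pow, Real.sq_sqrt hp.le]; field_simp
    have h1 := hmax' (c • y) ⟨by rw [Nq_smul, hc2], u, by simp [hu]⟩
    rw [Cq_smul] at h1
    have : Cq M y = (c ^ 2 * Cq M y) * Nq y := by
      linear_combination (-Cq M y) * hc2
    rw [this]
    exact mul_le_mul_of_nonneg_right h1 hp.le
  have hy₀ne : y₀ ≠ 0 := by
    intro h
    have := hy₀K.1
    rw [h] at this
    simp [Nq] at this
  have hl2 : l < 2 := by
    have := tits_pos cs hcut hy₀ne
    rw [hy₀K.1] at this
    linarith
  obtain ⟨s, hs, t, ht, hst2⟩ := hcut {s | y₀ s ≠ 0} (Function.ne_iff.mp hy₀ne) (by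
    intro h
    obtain ⟨u, hu⟩ := hy₀K.2
    have : u ∈ {s | y₀ s ≠ 0} := by rw [h]; trivial
    exact this hu)
  have hst : s ≠ t := by rintro rfl; exact ht hs
  have ht0 : y₀ t = 0 := by simpa using ht
  set κ := ∑ s, cof M s t * y₀ s with hκ
  have hκpos : 0 < κ := by
    apply Finset.sum_pos' (fun s _ => mul_nonneg (cof_nonneg s t) (abs_nonneg _))
      ⟨s, Finset.mem_univ _, ?_⟩
    exact mul_pos (cof_pos hst hst2) (lt_of_le_of_ne (abs_nonneg _) (Ne.symm hs))
  set w : S → ℝ := y₀ + Pi.single t κ with hw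
  have hNw : Nq w = 1 + κ ^ 2 := by rw [hw, Nq_single_add _ _ ht0, hy₀K.1]
  have hCw : Cq M w = l + 2 * κ * κ := by rw [hw, Cq_single_add]
  have hwne : w ≠ 0 := by
    intro h
    rw [h] at hNw
    simp [Nq] at hNw
    nlinarith
  have hw2 := tits_pos cs hcut hwne
  have hN : 0 < Nq w := Nq_pos hwne
  set m := Cq M w / Nq w with hm
  have hm1 : m * Nq w = Cq M w := by rw [hm]; field_simp
  have hlm : l < m := by
    rw [hm, lt_div_iff₀ hN, hNw, hCw]
    nlinarith [mul_pos hκpos hκpos]
  have hm2 : m < 2 := by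
    rw [hm, div_lt_iff₀ hN]; exact hw2
  refine ⟨(l + m) / 2, (m - l) / 2, by linarith, by linarith, ?_, fun s => (w s : ℂ), ?_⟩
  · intro p u hu
    have h1 := form_re_ge (M := M) ((l + m) / 2) p
    have h3 := hray (fun s => ‖p s‖) u (by simp [hu])
    linarith
  · rw [form_re_real]
    nlinarith

end Pool.Agent.H790Z.AP
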